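import Mathlib

/-!
Simple `t`-designs and the sizes of their minimal defining sets.
-/

namespace Pool.Agent.J4H67.MinDef

/-- `B` is the block set of a simple `t`-`(v,k,l)` design on the point set `Fin v`. -/
def IsDesign (t v k l : ℕ) (B : Finset (Finset (Fin v))) : Prop :=
  (∀ b ∈ B, b.card = k) ∧
    ∀ T : Finset (Fin v), T.card = t → (B.filter (fun b => T ⊆ b)).card = l

/-- `S` is a defining set of `B`: `B` is the only design with these parameters on the same points
whose block set contains `S`. -/
def IsDefining (t v k l : ℕ) (B S : Finset (Finset (Fin v))) : Prop :=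
  S ⊆ B ∧ ∀ B' : Finset (Finset (Fin v)), IsDesign t v k l B' → S ⊆ B' → B' = B

/-- `S` is a defining set of `B` and no proper subset of `S` is one. -/
def IsMinimalDefining (t v k l : ℕ) (B S : Finset (Finset (Fin v))) : Prop :=
  IsDefining t v k l B S ∧ ∀ S', S' ⊂ S → ¬ IsDefining t v k l B S'

/-- The set of the sizes of the minimal defining sets of `B`. -/
def Spec (t v k l : ℕ) (B : Finset (Finset (Fin v))) : Set ℕ :=
  {n | ∃ S, IsMinimalDefining t v k l B S ∧ S.card = n}

/-- The Fano plane: the translates of `{0, 1, 3}` modulo 7. -/
def fano : Finset (Finset (Fin 7)) := Finset.univ.image (fun x : Fin 7 => {x, x + 1, x + 3})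

/-- All triples that are not lines of the Fano plane. -/
def fanoComplement : Finset (Finset (Fin 7)) := (Finset.univ.powersetCard 3) \ fano

end Pool.Agent.J4H67.MinDef
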