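import Pool.Agent.J4H67.MinDef.Defs

set_option maxRecDepth 100000

/-!
Search for the minimal defining sets of the simple 2-(7,3,4) design consisting of the 28 triples
of `Z/7` that are not lines of the Fano plane.
-/

namespace Pool.Agent.J4H67.MinDef

open Finset

/-- The 35 three-element subsets of `Fin 7`. -/
def triL : List (Finset (Fin 7)) := [{0, 1, 2}, {0, 1, 3}, {0, 1, 4}, {0, 1, 5}, {0, 1, 6}, {0, 2, 3}, {0, 2, 4}, {0, 2, 5}, {0, 2, 6}, {0, 3, 4}, {0, 3, 5}, {0, 3, 6}, {0, 4, 5}, {0, 4, 6}, {0, 5, 6}, {1, 2, 3}, {1, 2, 4}, {1, 2, 5}, {1, 2, 6}, {1, 3, 4}, {1, 3, 5}, {1, 3, 6}, {1, 4, 5}, {1, 4, 6}, {1, 5, 6}, {2, 3, 4}, {2, 3, 5}, {2, 3, 6}, {2, 4, 5}, {2, 4, 6}, {2, 5, 6}, {3, 4, 5}, {3, 4, 6}, {3, 5, 6}, {4, 5, 6}]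

/-- The 21 two-element subsets of `Fin 7`. -/
def prL : List (Finset (Fin 7)) := [{0, 1}, {0, 2}, {0, 3}, {0, 4}, {0, 5}, {0, 6}, {1, 2}, {1, 3}, {1, 4}, {1, 5}, {1, 6}, {2, 3}, {2, 4}, {2, 5}, {2, 6}, {3, 4}, {3, 5}, {3, 6}, {4, 5}, {4, 6}, {5, 6}]

/-- Bit masks of the 30 Fano planes. -/
def fmL : List ℕ := [4378923266, 621287425, 2298552450, 4366549058, 4580214020, 5369827376, 8632013058, 17249141512, 419963905, 610288129, 1116739585, 2290237506, 2701166724, 3223396392, 4564729892, 5372937296, 8627953794, 8866792200, 9127465008, 17215653124, 17247766600, 17315201680, 412107265, 1113596929, 2686599204, 3229648968, 8859164712, 9131033232, 17214736516, 17314743376]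

/-- For each triple, the mask of the planes (other than number 0) containing it. -/
def incL : List ℕ := [12584706, 67660, 285757456, 101851264, 673480736, 84172832, 571508744, 404819972, 655568, 140640896, 545816848, 303043586, 263266, 75571460, 20990472, 167940112, 2105508, 554436672, 336674824, 605290754, 274744352, 25698944, 142705160, 37882944, 4374, 277414976, 1049226, 543164676, 71450896, 151261698, 41985056, 50345988, 49208, 201785408, 808976512]

/-- For each pair, the mask of the triples containing it. -/
def pmL : List ℕ := [31, 481, 3618, 12868, 21640, 26896, 491521, 3702786, 13172740, 22151176, 27525136, 234913824, 838926400, 1409417344, 1745092864, 6476530176, 10805576704, 13021218816, 19599986688, 22020104192, 26860339200]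

/-- For each triple, the mask of the pairs contained in it. -/
def ppL : List ℕ := [67, 133, 265, 529, 1057, 2054, 4106, 8210, 16418, 32780, 65556, 131108, 262168, 524328, 1048624, 2240, 4416, 8768, 17472, 33152, 66176, 132224, 262912, 525568, 1050112, 38912, 75776, 149504, 274432, 544768, 1073152, 360448, 688128, 1245184, 1835008]

/-- The other planes with their triples outside plane number 0. -/
def edges : List (ℕ × List (ℕ × ℕ)) := [
  (1, [(0, 12584706), (11, 303043586), (19, 605290754), (29, 151261698)]),
  (2, [(7, 404819972), (13, 75571460), (27, 543164676), (31, 50345988)]),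
  (3, [(6, 571508744), (14, 20990472), (18, 336674824), (22, 142705160)]),
  (4, [(2, 285757456), (10, 545816848), (15, 167940112), (28, 71450896)]),
  (5, [(4, 673480736), (5, 84172832), (20, 274744352), (30, 41985056)]),
  (6, [(17, 554436672), (23, 37882944), (25, 277414976), (33, 201785408)]),
  (7, [(3, 101851264), (9, 140640896), (21, 25698944), (34, 808976512)]),
  (8, [(0, 12584706), (10, 545816848), (13, 75571460), (19, 605290754), (27, 543164676), (28, 71450896)]),
  (9, [(0, 12584706), (9, 140640896), (14, 20990472), (21, 25698944), (22, 142705160), (29, 151261698)]),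
  (10, [(0, 12584706), (11, 303043586), (20, 274744352), (23, 37882944), (25, 277414976), (30, 41985056)]),
  (11, [(6, 571508744), (14, 20990472), (17, 554436672), (23, 37882944), (27, 543164676), (31, 50345988)]),
  (12, [(2, 285757456), (7, 404819972), (11, 303043586), (15, 167940112), (29, 151261698), (31, 50345988)]),
  (13, [(3, 101851264), (5, 84172832), (13, 75571460), (21, 25698944), (30, 41985056), (31, 50345988)]),
  (14, [(2, 285757456), (5, 84172832), (14, 20990472), (18, 336674824), (20, 274744352), (28, 71450896)]),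
  (15, [(4, 673480736), (6, 571508744), (10, 545816848), (15, 167940112), (22, 142705160), (30, 41985056)]),
  (16, [(7, 404819972), (13, 75571460), (18, 336674824), (22, 142705160), (25, 277414976), (33, 201785408)]),
  (17, [(3, 101851264), (9, 140640896), (15, 167940112), (23, 37882944), (28, 71450896), (33, 201785408)]),
  (18, [(4, 673480736), (5, 84172832), (17, 554436672), (19, 605290754), (29, 151261698), (33, 201785408)]),
  (19, [(2, 285757456), (10, 545816848), (17, 554436672), (21, 25698944), (25, 277414976), (34, 808976512)]),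
  (20, [(3, 101851264), (6, 571508744), (11, 303043586), (18, 336674824), (19, 605290754), (34, 808976512)]),
  (21, [(4, 673480736), (7, 404819972), (9, 140640896), (20, 274744352), (27, 543164676), (34, 808976512)]),
  (22, [(0, 12584706), (9, 140640896), (14, 20990472), (20, 274744352), (23, 37882944), (27, 543164676), (28, 71450896)]),
  (23, [(0, 12584706), (10, 545816848), (13, 75571460), (21, 25698944), (22, 142705160), (25, 277414976), (30, 41985056)]),
  (24, [(2, 285757456), (5, 84172832), (14, 20990472), (17, 554436672), (21, 25698944), (29, 151261698), (31, 50345988)]),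
  (25, [(3, 101851264), (6, 571508744), (11, 303043586), (15, 167940112), (23, 37882944), (30, 41985056), (31, 50345988)]),
  (26, [(3, 101851264), (5, 84172832), (13, 75571460), (18, 336674824), (19, 605290754), (28, 71450896), (33, 201785408)]),
  (27, [(4, 673480736), (7, 404819972), (9, 140640896), (15, 167940112), (22, 142705160), (29, 151261698), (33, 201785408)]),
  (28, [(2, 285757456), (7, 404819972), (11, 303043586), (18, 336674824), (20, 274744352), (25, 277414976), (34, 808976512)]),
  (29, [(4, 673480736), (6, 571508744), (10, 545816848), (17, 554436672), (19, 605290754), (27, 543164676), (34, 808976512)])]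

/-- The pairs with the triples containing them. -/
def pairs : List (ℕ × List (ℕ × ℕ)) := [
  (0, [(0, 67), (1, 133), (2, 265), (3, 529), (4, 1057)]),
  (1, [(0, 67), (5, 2054), (6, 4106), (7, 8210), (8, 16418)]),
  (2, [(1, 133), (5, 2054), (9, 32780), (10, 65556), (11, 131108)]),
  (3, [(2, 265), (6, 4106), (9, 32780), (12, 262168), (13, 524328)]),
  (4, [(3, 529), (7, 8210), (10, 65556), (12, 262168), (14, 1048624)]),
  (5, [(4, 1057), (8, 16418), (11, 131108), (13, 524328), (14, 1048624)]),
  (6, [(0, 67), (15, 2240), (16, 4416), (17, 8768), (18, 17472)]),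
  (7, [(1, 133), (15, 2240), (19, 33152), (20, 66176), (21, 132224)]),
  (8, [(2, 265), (16, 4416), (19, 33152), (22, 262912), (23, 525568)]),
  (9, [(3, 529), (17, 8768), (20, 66176), (22, 262912), (24, 1050112)]),
  (10, [(4, 1057), (18, 17472), (21, 132224), (23, 525568), (24, 1050112)]),
  (11, [(5, 2054), (15, 2240), (25, 38912), (26, 75776), (27, 149504)]),
  (12, [(6, 4106), (16, 4416), (25, 38912), (28, 274432), (29, 544768)]),
  (13, [(7, 8210), (17, 8768), (26, 75776), (28, 274432), (30, 1073152)]),
  (14, [(8, 16418), (18, 17472), (27, 149504), (29, 544768), (30, 1073152)]),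
  (15, [(9, 32780), (19, 33152), (25, 38912), (31, 360448), (32, 688128)]),
  (16, [(10, 65556), (20, 66176), (26, 75776), (31, 360448), (33, 1245184)]),
  (17, [(11, 131108), (21, 132224), (27, 149504), (32, 688128), (33, 1245184)]),
  (18, [(12, 262168), (22, 262912), (28, 274432), (31, 360448), (34, 1835008)]),
  (19, [(13, 524328), (23, 525568), (29, 544768), (32, 688128), (34, 1835008)]),
  (20, [(14, 1048624), (24, 1050112), (30, 1073152), (33, 1245184), (34, 1835008)])]

/-- Masks of minimal defining sets of sizes 7, 8, 9, 10, 13. -/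
def exL : List (ℕ × ℕ) := [(7, 8727592961), (8, 2319975464), (9, 10744801296), (10, 28220623360), (13, 3764569204)]


/-- Bit test by kernel arithmetic. -/
def tb (m i : ℕ) : Bool := Nat.beq (Nat.land (Nat.shiftRight m i) 1) 1

theorem tb_eq (m i : ℕ) : tb m i = m.testBit i := by
  have h1 : Nat.land (Nat.shiftRight m i) 1 = (m >>> i) % 2 := by
    change (m >>> i) &&& 1 = _
    exact Nat.and_one_is_mod _
  have h2 : m.testBit i = decide ((m >>> i) % 2 = 1) := by
    rw [Nat.testBit_eq_decide_div_mod_eq, Nat.shiftRight_eq_div_pow]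
  unfold tb
  rw [h1, h2]
  rcases Nat.mod_two_eq_zero_or_one (m >>> i) with h | h <;> rw [h] <;> rfl

def tri (i : ℕ) : Finset (Fin 7) := triL.getD i ∅
def pr (k : ℕ) : Finset (Fin 7) := prL.getD k ∅
def fm (j : ℕ) : ℕ := fmL.getD j 0
def inc (i : ℕ) : ℕ := incL.getD i 0
def pm (k : ℕ) : ℕ := pmL.getD k 0
def pp (i : ℕ) : ℕ := ppL.getD i 0

/-! ### The search for minimal hitting sets -/

/-- Branch over the elements of an uncovered edge. -/
def loop (rec : ℕ → List ℕ → ℕ → ℕ → Bool) (unc : ℕ) (crit : List ℕ) (d : ℕ) :
    List (ℕ × ℕ) → ℕ → Bool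
  | [], _ => true
  | (i, m) :: l, x =>
    bif tb x i then loop rec unc crit d l x
    else
      (bif crit.any (fun c => Nat.beq (Nat.xor c (Nat.land c m)) 0) then true
        else rec (Nat.xor unc (Nat.land unc m))
          (Nat.land unc m :: crit.map (fun c => Nat.xor c (Nat.land c m))) x (d + 1)) &&
      loop rec unc crit d l (Nat.lor x (2 ^ i))

/-- The search over all minimal hitting sets. -/
def go (ok : ℕ → Bool) : List (ℕ × List (ℕ × ℕ)) → ℕ → List ℕ → ℕ → ℕ → Bool
  | [], _, _, _, d => ok d
  | (j, l) :: es, unc, crit, x, d =>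
    bif tb unc j then loop (fun u c x' d' => go ok es u c x' d') unc crit d l x
    else go ok es unc crit x d

/-- The indices of the planes other than number 0. -/
def J : Finset ℕ := (Finset.range 30).erase 0

structure Inv (H S : Finset ℕ) (es : List (ℕ × List (ℕ × ℕ))) (unc : ℕ) (crit : List ℕ)
    (x d : ℕ) : Prop where
  hsub : S ⊆ H
  hcard : S.card = d
  hunc : ∀ j, unc.testBit j = true ↔ (j ∈ J ∧ ∀ s ∈ S, (inc s).testBit j = false)
  hcrit : ∀ c ∈ crit, ∃ j, c.testBit j = true ∧ ∀ i ∈ H, i ∉ S → (inc i).testBit j = false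
  hx : ∀ i ∈ H, i ∉ S → x.testBit i = false
  hcov : ∀ j ∈ J, unc.testBit j = true → ∃ e ∈ es, e.1 = j

def Good (H : Finset ℕ) (e : ℕ × List (ℕ × ℕ)) : Prop :=
  (∀ i ∈ H, (inc i).testBit e.1 = true → (i, inc i) ∈ e.2) ∧
    ∀ p ∈ e.2, p.2 = inc p.1 ∧ (inc p.1).testBit e.1 = true

def MinHit (H : Finset ℕ) : Prop :=
  (∀ j ∈ J, ∃ i ∈ H, (inc i).testBit j = true) ∧
    ∀ i ∈ H, ∃ j ∈ J, (inc i).testBit j = true ∧ ∀ i' ∈ H, (inc i').testBit j = true → i' = i

theorem land_tb (a b j : ℕ) : (Nat.land a b).testBit j = (a.testBit j && b.testBit j) :=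
  Nat.testBit_and a b j

theorem diff_tb (a b j : ℕ) :
    (Nat.xor a (Nat.land a b)).testBit j = (a.testBit j && !(b.testBit j)) := by
  have h : (Nat.xor a (Nat.land a b)).testBit j
      = ((a.testBit j) ^^ ((Nat.land a b).testBit j)) := Nat.testBit_xor a (Nat.land a b) j
  rw [h, land_tb]
  cases a.testBit j <;> cases b.testBit j <;> rfl

theorem lor_tb (a b j : ℕ) : (Nat.lor a b).testBit j = (a.testBit j || b.testBit j) :=
  Nat.testBit_or a b j

theorem loop_sound {H : Finset ℕ} (hH : MinHit H) {ok : ℕ → Bool}
    {rec : ℕ → List ℕ → ℕ → ℕ → Bool} {es : List (ℕ × List (ℕ × ℕ))}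
    (hrec : ∀ S u c x d, Inv H S es u c x d → rec u c x d = true → ok H.card = true)
    {S : Finset ℕ} {e0 : ℕ × List (ℕ × ℕ)} {unc : ℕ} {crit : List ℕ} {d : ℕ}
    (hj0 : unc.testBit e0.1 = true) :
    ∀ (l : List (ℕ × ℕ)) (x : ℕ), Inv H S (e0 :: es) unc crit x d →
      (∀ p ∈ l, p.2 = inc p.1 ∧ (inc p.1).testBit e0.1 = true) →
      (∃ i ∈ H, (i, inc i) ∈ l) →
      loop rec unc crit d l x = true → ok H.card = true := by
  intro l
  induction l with
  | nil =>
    intro x _ _ hex _
    obtain ⟨i, _, hi⟩ := hex
    exact absurd hi List.not_mem_nil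
  | cons p l ih =>
    obtain ⟨i, m⟩ := p
    intro x hInv hp hex hl
    have hm : m = inc i := (hp (i, m) List.mem_cons_self).1
    have hi0 : (inc i).testBit e0.1 = true := (hp (i, m) List.mem_cons_self).2
    have hp' : ∀ p ∈ l, p.2 = inc p.1 ∧ (inc p.1).testBit e0.1 = true :=
      fun p h => hp p (List.mem_cons_of_mem _ h)
    subst hm
    have hnotS : i ∉ S := by
      intro his
      have := ((hInv.hunc e0.1).1 hj0).2 i his
      rw [this] at hi0
      exact absurd hi0 (by decide)
    unfold loop at hl
    by_cases htx : tb x i = true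
    · rw [htx] at hl
      simp only [cond_true] at hl
      have hiH : i ∉ H := by
        intro hiH
        have := hInv.hx i hiH hnotS
        rw [tb_eq, this] at htx
        exact absurd htx (by decide)
      have hex' : ∃ i ∈ H, (i, inc i) ∈ l := by
        obtain ⟨i1, h1, h2⟩ := hex
        rcases List.mem_cons.1 h2 with h | h
        · have : i1 = i := congrArg Prod.fst h
          exact absurd (this ▸ h1) hiH
        · exact ⟨i1, h1, h⟩
      exact ih x hInv hp' hex' hl
    · have htx' : tb x i = false := by simpa using htx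
      rw [htx'] at hl
      simp only [cond_false, Bool.and_eq_true] at hl
      obtain ⟨hA, hB⟩ := hl
      by_cases hiH : i ∈ H
      · have hany : (crit.any (fun c => Nat.beq (Nat.xor c (Nat.land c (inc i))) 0)) = false := by
          rw [List.any_eq_false]
          intro c hc hbeq
          have h0 : Nat.xor c (Nat.land c (inc i)) = 0 := Nat.eq_of_beq_eq_true hbeq
          obtain ⟨j, hj1, hj2⟩ := hInv.hcrit c hc
          have h3 := diff_tb c (inc i) j
          rw [h0, hj1, hj2 i hiH hnotS, Nat.zero_testBit] at h3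
          exact absurd h3 (by decide)
        rw [hany] at hA
        simp only [cond_false] at hA
        refine hrec (insert i S) _ _ _ _ ?_ hA
        refine ⟨?_, ?_, ?_, ?_, ?_, ?_⟩
        · intro a ha
          rcases Finset.mem_insert.1 ha with h | h
          · rw [h]; exact hiH
          · exact hInv.hsub h
        · rw [Finset.card_insert_of_notMem hnotS, hInv.hcard]
        · intro j
          rw [diff_tb]
          constructor
          · intro h
            simp only [Bool.and_eq_true, Bool.not_eq_true'] at h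
            obtain ⟨h1, h2⟩ := (hInv.hunc j).1 h.1
            refine ⟨h1, ?_⟩
            intro s hs
            rcases Finset.mem_insert.1 hs with h' | h'
            · rw [h']; exact h.2
            · exact h2 s h'
          · rintro ⟨h1, h2⟩
            have h3 := (hInv.hunc j).2 ⟨h1, fun s hs => h2 s (Finset.mem_insert_of_mem hs)⟩
            have h4 := h2 i (Finset.mem_insert_self _ _)
            rw [h3, h4]; rfl
        · intro c hc
          rcases List.mem_cons.1 hc with h | h
          · obtain ⟨j, hjJ, hj1, hj2⟩ := hH.2 i hiH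
            refine ⟨j, ?_, ?_⟩
            · rw [h, land_tb, hj1, Bool.and_true]
              refine (hInv.hunc j).2 ⟨hjJ, ?_⟩
              intro s hs
              by_contra hne
              have hs1 : (inc s).testBit j = true := by simpa using hne
              have := hj2 s (hInv.hsub hs) hs1
              rw [this] at hs
              exact hnotS hs
            · intro i' hi' hi'S
              by_contra hne
              have hs1 : (inc i').testBit j = true := by simpa using hne
              have := hj2 i' hi' hs1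
              exact hi'S (this ▸ Finset.mem_insert_self _ _)
          · obtain ⟨c0, hc0, hc0'⟩ := List.mem_map.1 h
            obtain ⟨j, hj1, hj2⟩ := hInv.hcrit c0 hc0
            refine ⟨j, ?_, ?_⟩
            · rw [← hc0', diff_tb, hj1, hj2 i hiH hnotS]; rfl
            · intro i' hi' hi'S
              exact hj2 i' hi' (fun h => hi'S (Finset.mem_insert_of_mem h))
        · intro i' hi' hi'S
          exact hInv.hx i' hi' (fun h => hi'S (Finset.mem_insert_of_mem h))
        · intro j hj hju
          rw [diff_tb] at hju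
          simp only [Bool.and_eq_true, Bool.not_eq_true'] at hju
          obtain ⟨e, he, hej⟩ := hInv.hcov j hj hju.1
          rcases List.mem_cons.1 he with h | h
          · rw [h] at hej
            rw [← hej, hi0] at hju
            exact absurd hju.2 (by decide)
          · exact ⟨e, h, hej⟩
      · have hex' : ∃ i ∈ H, (i, inc i) ∈ l := by
          obtain ⟨i1, h1, h2⟩ := hex
          rcases List.mem_cons.1 h2 with h | h
          · have : i1 = i := congrArg Prod.fst h
            exact absurd (this ▸ h1) hiH
          · exact ⟨i1, h1, h⟩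
        refine ih _ ⟨hInv.hsub, hInv.hcard, hInv.hunc, hInv.hcrit, ?_, hInv.hcov⟩ hp' hex' hB
        intro i' hi' hi'S
        rw [lor_tb, hInv.hx i' hi' hi'S, Bool.false_or, Nat.testBit_two_pow]
        have : i ≠ i' := by
          intro h
          exact hiH (h ▸ hi')
        simpa using this

theorem go_sound {H : Finset ℕ} (hH : MinHit H) {ok : ℕ → Bool} :
    ∀ (es : List (ℕ × List (ℕ × ℕ))), (∀ e ∈ es, Good H e) →
      ∀ S u c x d, Inv H S es u c x d → go ok es u c x d = true → ok H.card = true := by
  intro es
  induction es with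
  | nil =>
    intro _ S u c x d hInv hgo
    have hSH : S = H := by
      refine Finset.Subset.antisymm hInv.hsub ?_
      intro v hv
      by_contra hvS
      obtain ⟨j, hjJ, hj1, hj2⟩ := hH.2 v hv
      have : u.testBit j = true := by
        refine (hInv.hunc j).2 ⟨hjJ, ?_⟩
        intro s hs
        by_contra hne
        have hs1 : (inc s).testBit j = true := by simpa using hne
        have := hj2 s (hInv.hsub hs) hs1
        exact hvS (this ▸ hs)
      obtain ⟨e, he, _⟩ := hInv.hcov j hjJ this
      exact absurd he List.not_mem_nil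
    rw [← hSH, hInv.hcard]
    exact hgo
  | cons e es ih =>
    intro hgood S u c x d hInv hgo
    obtain ⟨j, l⟩ := e
    unfold go at hgo
    have hgood' : ∀ e ∈ es, Good H e := fun e h => hgood e (List.mem_cons_of_mem _ h)
    by_cases htu : tb u j = true
    · rw [htu] at hgo
      simp only [cond_true] at hgo
      have hju : u.testBit j = true := by rw [← tb_eq]; exact htu
      have hg := hgood (j, l) List.mem_cons_self
      refine loop_sound hH (fun S u c x d hI h => ih hgood' S u c x d hI h)
        (e0 := (j, l)) hju l x hInv hg.2 ?_ hgo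
      obtain ⟨i, hiH, hi⟩ := hH.1 j ((hInv.hunc j).1 hju).1
      exact ⟨i, hiH, hg.1 i hiH hi⟩
    · have htu' : tb u j = false := by simpa using htu
      rw [htu'] at hgo
      simp only [cond_false] at hgo
      refine ih hgood' S u c x d ⟨hInv.hsub, hInv.hcard, hInv.hunc, hInv.hcrit, hInv.hx, ?_⟩ hgo
      intro j' hj' hju'
      obtain ⟨e, he, hej⟩ := hInv.hcov j' hj' hju'
      rcases List.mem_cons.1 he with h | h
      · rw [h] at hej
        rw [← hej, ← tb_eq, htu'] at hju'
        exact absurd hju' (by decide)
      · exact ⟨e, h, hej⟩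


/-- `loop` written with recursors, for fast evaluation. -/
noncomputable def loopF (rec : ℕ → List ℕ → ℕ → ℕ → Bool) (unc : ℕ) (crit : List ℕ) (d : ℕ)
    (l : List (ℕ × ℕ)) : ℕ → Bool :=
  List.rec (motive := fun _ => ℕ → Bool) (fun _ => true)
    (fun p _ ih x =>
      cond (tb x p.1) (ih x)
        (cond
          (cond (List.rec (motive := fun _ => Bool) false
              (fun c _ ih2 => cond (Nat.beq (Nat.xor c (Nat.land c p.2)) 0) true ih2) crit) true
            (rec (Nat.xor unc (Nat.land unc p.2))
              (Nat.land unc p.2 :: List.rec (motive := fun _ => List ℕ) []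
                (fun c _ ih3 => Nat.xor c (Nat.land c p.2) :: ih3) crit) x (Nat.succ d)))
          (ih (Nat.lor x (Nat.pow 2 p.1))) false)) l

/-- `go` written with recursors, for fast evaluation. -/
noncomputable def goF (ok : ℕ → Bool) (es : List (ℕ × List (ℕ × ℕ))) :
    ℕ → List ℕ → ℕ → ℕ → Bool :=
  List.rec (motive := fun _ => ℕ → List ℕ → ℕ → ℕ → Bool) (fun _ _ _ d => ok d)
    (fun e _ ih unc crit x d =>
      cond (tb unc e.1) (loopF ih unc crit d e.2 x) (ih unc crit x d)) es

theorem any_rec (f : ℕ → Bool) (l : List ℕ) :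
    (List.rec (motive := fun _ => Bool) false (fun c _ ih2 => cond (f c) true ih2) l : Bool)
      = l.any f := by
  induction l with
  | nil => rfl
  | cons c l ih =>
    change cond (f c) true _ = _
    rw [ih, List.any_cons]
    cases f c <;> rfl

theorem map_rec (f : ℕ → ℕ) (l : List ℕ) :
    (List.rec (motive := fun _ => List ℕ) [] (fun c _ ih3 => f c :: ih3) l : List ℕ)
      = l.map f := by
  induction l with
  | nil => rfl
  | cons c l ih =>
    change f c :: _ = _
    rw [ih, List.map_cons]

theorem loop_eq (rec : ℕ → List ℕ → ℕ → ℕ → Bool) (unc : ℕ) (crit : List ℕ) (d : ℕ)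
    (l : List (ℕ × ℕ)) : ∀ x, loopF rec unc crit d l x = loop rec unc crit d l x := by
  induction l with
  | nil => intro x; rfl
  | cons p l ih =>
    intro x
    obtain ⟨i, m⟩ := p
    unfold loop
    have h : loopF rec unc crit d ((i, m) :: l) x =
      cond (tb x i) (loopF rec unc crit d l x)
        (cond
          (cond (List.rec (motive := fun _ => Bool) false
              (fun c _ ih2 => cond (Nat.beq (Nat.xor c (Nat.land c m)) 0) true ih2) crit) true
            (rec (Nat.xor unc (Nat.land unc m))
              (Nat.land unc m :: List.rec (motive := fun _ => List ℕ) []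
                (fun c _ ih3 => Nat.xor c (Nat.land c m) :: ih3) crit) x (Nat.succ d)))
          (loopF rec unc crit d l (Nat.lor x (Nat.pow 2 i))) false) := rfl
    rw [h, any_rec (fun c => Nat.beq (Nat.xor c (Nat.land c m)) 0) crit,
      map_rec (fun c => Nat.xor c (Nat.land c m)) crit, ih, ih]
    have h2 : ∀ a b : Bool, cond a b false = (a && b) := by decide
    rw [h2]
    rfl

theorem go_eq (ok : ℕ → Bool) (es : List (ℕ × List (ℕ × ℕ))) :
    ∀ u c x d, goF ok es u c x d = go ok es u c x d := by
  induction es with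
  | nil => intro u c x d; rfl
  | cons e es ih =>
    intro u c x d
    obtain ⟨j, l⟩ := e
    unfold go
    have h : goF ok ((j, l) :: es) u c x d =
      cond (tb u j) (loopF (goF ok es) u c d l x) (goF ok es u c x d) := rfl
    have h2 : goF ok es = fun u c x' d' => go ok es u c x' d' := by
      funext u c x' d'
      exact ih u c x' d'
    rw [h, h2, loop_eq]

def okSize (n : ℕ) : Bool := [7, 8, 9, 10, 13].elem n

theorem search : go okSize edges (2 ^ 30 - 2) [] 0 0 = true := by
  rw [← go_eq]
  decide +kernel

/-! ### Classification of the planes -/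

/-- Search for all partitions of the pairs into triples. -/
def cover (fms : List ℕ) : List (ℕ × List (ℕ × ℕ)) → ℕ → ℕ → Bool
  | [], _, s => fms.any (fun m => Nat.beq m s)
  | (k, l) :: ps, cp, s =>
    bif tb cp k then cover fms ps cp s
    else l.all (fun p => bif Nat.beq (Nat.land cp p.2) 0 then
      cover fms ps (Nat.lor cp p.2) (Nat.lor s (2 ^ p.1)) else true)

theorem cover_search : cover fmL pairs 0 0 = true := by decide +kernel

theorem fact_pp_lt : ∀ i < 35, pp i < 2 ^ 21 := by decide +kernel
theorem fact_pp_ex : ∀ i < 35, ∃ k < 21, (pp i).testBit k = true := by decide +kernel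
theorem fact_pp_pm : ∀ i < 35, ∀ k < 21, (pp i).testBit k = (pm k).testBit i := by decide +kernel

def GoodP (e : ℕ × List (ℕ × ℕ)) : Prop :=
  e.1 < 21 ∧ (∀ i < 35, (pp i).testBit e.1 = true → (i, pp i) ∈ e.2) ∧
    ∀ p ∈ e.2, p.2 = pp p.1 ∧ (pp p.1).testBit e.1 = true

theorem fact_pairs : (∀ e ∈ pairs, GoodP e) ∧ ∀ k < 21, ∃ e ∈ pairs, e.1 = k := by
  unfold GoodP
  decide +kernel

theorem cover_sound {I : Finset ℕ} (hI : ∀ i ∈ I, i < 35)
    (huni : ∀ k < 21, ∃ i ∈ I, (pp i).testBit k = true ∧
      ∀ i' ∈ I, (pp i').testBit k = true → i' = i) {fms : List ℕ} :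
    ∀ (ps : List (ℕ × List (ℕ × ℕ))), (∀ e ∈ ps, GoodP e) → ∀ (S : Finset ℕ) (cp s : ℕ),
      S ⊆ I → (∀ i, s.testBit i = true ↔ i ∈ S) →
      (∀ k, cp.testBit k = true ↔ ∃ i ∈ S, (pp i).testBit k = true) →
      (∀ k < 21, cp.testBit k = false → ∃ e ∈ ps, e.1 = k) →
      cover fms ps cp s = true → ∃ m ∈ fms, ∀ i, m.testBit i = true ↔ i ∈ I := by
  intro ps
  induction ps with
  | nil =>
    intro _ S cp s hS hs hcp hcov h
    have hSI : S = I := by
      refine Finset.Subset.antisymm hS ?_
      intro i hi
      obtain ⟨k, hk, hik⟩ := fact_pp_ex i (hI i hi)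
      have hc : cp.testBit k = true := by
        by_contra hne
        obtain ⟨e, he, _⟩ := hcov k hk (by simpa using hne)
        exact absurd he List.not_mem_nil
      obtain ⟨i1, hi1, hi1k⟩ := (hcp k).1 hc
      obtain ⟨i0, _, _, hu⟩ := huni k hk
      have h1 := hu i hi hik
      have h2 := hu i1 (hS hi1) hi1k
      rw [h1, ← h2]
      exact hi1
    unfold cover at h
    rw [List.any_eq_true] at h
    obtain ⟨m, hm, hms⟩ := h
    have : m = s := Nat.eq_of_beq_eq_true hms
    refine ⟨m, hm, ?_⟩
    intro i
    rw [this, hs i, hSI]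
  | cons e ps ih =>
    intro hg S cp s hS hs hcp hcov h
    obtain ⟨k, l⟩ := e
    have hg' : ∀ e ∈ ps, GoodP e := fun e h => hg e (List.mem_cons_of_mem _ h)
    have hg0 := hg (k, l) List.mem_cons_self
    unfold cover at h
    by_cases htk : tb cp k = true
    · rw [htk] at h
      simp only [cond_true] at h
      refine ih hg' S cp s hS hs hcp ?_ h
      intro k' hk' hc
      obtain ⟨e, he, hek⟩ := hcov k' hk' hc
      rcases List.mem_cons.1 he with h1 | h1
      · rw [h1] at hek
        have hek' : k = k' := hek
        rw [← hek', ← tb_eq, htk] at hc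
        exact absurd hc (by decide)
      · exact ⟨e, h1, hek⟩
    · have htk' : tb cp k = false := by simpa using htk
      rw [htk'] at h
      simp only [cond_false] at h
      obtain ⟨i, hi, hik, hu⟩ := huni k hg0.1
      have hmem := hg0.2.1 i (hI i hi) hik
      have h1 := (List.all_eq_true.1 h) (i, pp i) hmem
      have hiS : i ∉ S := by
        intro hiS
        have : cp.testBit k = true := (hcp k).2 ⟨i, hiS, hik⟩
        rw [← tb_eq, htk'] at this
        exact absurd this (by decide)
      have hz : Nat.beq (Nat.land cp (pp i)) 0 = true := by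
        have : Nat.land cp (pp i) = 0 := by
          apply Nat.eq_of_testBit_eq
          intro k'
          rw [land_tb, Nat.zero_testBit]
          by_contra hne
          have hb : (cp.testBit k' && (pp i).testBit k') = true := by simpa using hne
          rw [Bool.and_eq_true] at hb
          have hk' : k' < 21 := by
            by_contra hge
            have h3 : (pp i).testBit k' = false :=
              Nat.testBit_eq_false_of_lt (lt_of_lt_of_le (fact_pp_lt i (hI i hi))
                (Nat.pow_le_pow_right (by norm_num) (not_lt.1 hge)))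
            rw [h3] at hb
            exact absurd hb.2 (by decide)
          obtain ⟨s0, hs0, hs0k⟩ := (hcp k').1 hb.1
          obtain ⟨i0, _, _, hu'⟩ := huni k' hk'
          have h4 := hu' i hi hb.2
          have h5 := hu' s0 (hS hs0) hs0k
          rw [← h5] at h4
          exact hiS (h4 ▸ hs0)
        rw [this]
        rfl
      simp only [hz, cond_true] at h1
      refine ih hg' (insert i S) _ _ ?_ ?_ ?_ ?_ h1
      · intro a ha
        rcases Finset.mem_insert.1 ha with h' | h'
        · rw [h']; exact hi
        · exact hS h'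
      · intro i'
        rw [lor_tb, Nat.testBit_two_pow, Bool.or_eq_true, hs i', Finset.mem_insert,
          decide_eq_true_eq]
        constructor
        · rintro (h' | h')
          · exact Or.inr h'
          · exact Or.inl h'.symm
        · rintro (h' | h')
          · exact Or.inr h'.symm
          · exact Or.inl h'
      · intro k'
        rw [lor_tb, Bool.or_eq_true, hcp k']
        constructor
        · rintro (⟨a, ha, hak⟩ | h')
          · exact ⟨a, Finset.mem_insert_of_mem ha, hak⟩
          · exact ⟨i, Finset.mem_insert_self _ _, h'⟩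
        · rintro ⟨a, ha, hak⟩
          rcases Finset.mem_insert.1 ha with h' | h'
          · rw [h'] at hak; exact Or.inr hak
          · exact Or.inl ⟨a, h', hak⟩
      · intro k' hk' hc
        rw [lor_tb, Bool.or_eq_false_iff] at hc
        obtain ⟨e, he, hek⟩ := hcov k' hk' hc.1
        rcases List.mem_cons.1 he with h' | h'
        · rw [h'] at hek
          have hek' : k = k' := hek
          rw [← hek', hik] at hc
          exact absurd hc.2 (by decide)
        · exact ⟨e, h', hek⟩

/-! ### Translation -/

theorem tri_inj : ∀ i < 35, ∀ j < 35, tri i = tri j → i = j := by decide +kernel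
theorem tri_card : ∀ i < 35, (tri i).card = 3 := by decide +kernel
theorem tri_surj : ∀ T : Finset (Fin 7), T.card = 3 → ∃ i < 35, tri i = T := by decide +kernel
theorem pr_surj : ∀ T : Finset (Fin 7), T.card = 2 → ∃ k < 21, pr k = T := by decide +kernel
theorem pr_card : ∀ k < 21, (pr k).card = 2 := by decide +kernel
theorem pr_tri : ∀ k < 21, ∀ i < 35, ((pm k).testBit i = true ↔ pr k ⊆ tri i) := by
  decide +kernel

/-- The design number `j`: all triples outside the plane number `j`. -/
def des (j : ℕ) : Finset (Finset (Fin 7)) :=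
  ((Finset.range 35).filter (fun i => (fm j).testBit i = false)).image tri

theorem mem_des {j i : ℕ} (hi : i < 35) : tri i ∈ des j ↔ (fm j).testBit i = false := by
  unfold des
  rw [Finset.mem_image]
  constructor
  · rintro ⟨a, ha, hai⟩
    rw [Finset.mem_filter, Finset.mem_range] at ha
    have := tri_inj a ha.1 i hi hai
    rw [← this]; exact ha.2
  · intro h
    exact ⟨i, by rw [Finset.mem_filter, Finset.mem_range]; exact ⟨hi, h⟩, rfl⟩

theorem fact_des : ∀ j < 30, ∀ k < 21, ((Finset.range 35).filter
    (fun i => (fm j).testBit i = false ∧ (pm k).testBit i = true)).card = 4 := by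
  decide +kernel

theorem fact_all : ∀ k < 21, ((Finset.range 35).filter
    (fun i => (pm k).testBit i = true)).card = 5 := by
  decide +kernel

theorem des_isDesign : ∀ j < 30, IsDesign 2 7 3 4 (des j) := by
  intro j hj
  refine ⟨?_, ?_⟩
  · intro b hb
    unfold des at hb
    obtain ⟨i, hi, rfl⟩ := Finset.mem_image.1 hb
    rw [Finset.mem_filter, Finset.mem_range] at hi
    exact tri_card i hi.1
  · intro T hT
    obtain ⟨k, hk, rfl⟩ := pr_surj T hT
    rw [← fact_des j hj k hk]
    have : (des j).filter (fun b => pr k ⊆ b) =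
        ((Finset.range 35).filter
          (fun i => (fm j).testBit i = false ∧ (pm k).testBit i = true)).image tri := by
      ext b
      rw [Finset.mem_filter, Finset.mem_image]
      constructor
      · rintro ⟨hb, hkb⟩
        unfold des at hb
        obtain ⟨i, hi, rfl⟩ := Finset.mem_image.1 hb
        rw [Finset.mem_filter, Finset.mem_range] at hi
        refine ⟨i, ?_, rfl⟩
        rw [Finset.mem_filter, Finset.mem_range]
        exact ⟨hi.1, hi.2, (pr_tri k hk i hi.1).2 hkb⟩
      · rintro ⟨i, hi, rfl⟩
        rw [Finset.mem_filter, Finset.mem_range] at hi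
        exact ⟨(mem_des hi.1).2 hi.2.1, (pr_tri k hk i hi.1).1 hi.2.2⟩
    rw [this, Finset.card_image_of_injOn]
    intro a ha b hb hab
    rw [Finset.coe_filter] at ha hb
    exact tri_inj a (Finset.mem_range.1 ha.1) b (Finset.mem_range.1 hb.1) hab

theorem fm_mem : ∀ m ∈ fmL, ∃ j < 30, fm j = m := by decide +kernel

theorem classify {B : Finset (Finset (Fin 7))} (hB : IsDesign 2 7 3 4 B) :
    ∃ j < 30, B = des j := by
  classical
  set I : Finset ℕ := (Finset.range 35).filter (fun i => tri i ∉ B) with hIdef
  have hI : ∀ i ∈ I, i < 35 := by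
    intro i hi
    rw [hIdef, Finset.mem_filter, Finset.mem_range] at hi
    exact hi.1
  have huni : ∀ k < 21, ∃ i ∈ I, (pp i).testBit k = true ∧
      ∀ i' ∈ I, (pp i').testBit k = true → i' = i := by
    intro k hk
    have h4 := hB.2 (pr k) (pr_card k hk)
    have h5 := fact_all k hk
    have hsplit : (I.filter (fun i => (pm k).testBit i = true)).card = 1 := by
      have hA : ((Finset.range 35).filter
          (fun i => (pm k).testBit i = true ∧ tri i ∈ B)).card = 4 := by
        rw [← h4]
        have : B.filter (fun b => pr k ⊆ b) = ((Finset.range 35).filter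
          (fun i => (pm k).testBit i = true ∧ tri i ∈ B)).image tri := by
          ext b
          rw [Finset.mem_filter, Finset.mem_image]
          constructor
          · rintro ⟨hb, hkb⟩
            obtain ⟨i, hi, rfl⟩ := tri_surj b (hB.1 b hb)
            refine ⟨i, ?_, rfl⟩
            rw [Finset.mem_filter, Finset.mem_range]
            exact ⟨hi, (pr_tri k hk i hi).2 hkb, hb⟩
          · rintro ⟨i, hi, rfl⟩
            rw [Finset.mem_filter, Finset.mem_range] at hi
            exact ⟨hi.2.2, (pr_tri k hk i hi.1).1 hi.2.1⟩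
        rw [this, Finset.card_image_of_injOn]
        intro a ha b hb hab
        rw [Finset.coe_filter] at ha hb
        exact tri_inj a (Finset.mem_range.1 ha.1) b (Finset.mem_range.1 hb.1) hab
      have hsum := Finset.card_filter_add_card_filter_not
        (s := (Finset.range 35).filter (fun i => (pm k).testBit i = true))
        (fun i => tri i ∈ B)
      rw [Finset.filter_filter, Finset.filter_filter, hA, h5] at hsum
      have hIeq : I.filter (fun i => (pm k).testBit i = true) =
          (Finset.range 35).filter (fun i => (pm k).testBit i = true ∧ ¬ tri i ∈ B) := by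
        ext i
        rw [hIdef, Finset.mem_filter, Finset.mem_filter, Finset.mem_filter]
        tauto
      rw [hIeq]
      omega
    obtain ⟨i, hi⟩ := Finset.card_eq_one.1 hsplit
    have hmem : i ∈ I.filter (fun i => (pm k).testBit i = true) := by
      rw [hi]; exact Finset.mem_singleton_self _
    rw [Finset.mem_filter] at hmem
    refine ⟨i, hmem.1, ?_, ?_⟩
    · rw [fact_pp_pm i (hI i hmem.1) k hk]; exact hmem.2
    · intro i' hi' hik
      rw [fact_pp_pm i' (hI i' hi') k hk] at hik
      have : i' ∈ I.filter (fun i => (pm k).testBit i = true) :=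
        Finset.mem_filter.2 ⟨hi', hik⟩
      rw [hi] at this
      exact Finset.mem_singleton.1 this
  obtain ⟨m, hm, hmI⟩ := cover_sound hI huni pairs fact_pairs.1 ∅ 0 0
    (Finset.empty_subset _) (by intro i; simp) (by intro k; simp)
    (fun k hk _ => fact_pairs.2 k hk) cover_search
  obtain ⟨j, hj, hjm⟩ := fm_mem m hm
  refine ⟨j, hj, ?_⟩
  have key : ∀ i < 35, (tri i ∈ B ↔ (fm j).testBit i = false) := by
    intro i hi
    have h1 := hmI i
    rw [← hjm, hIdef, Finset.mem_filter, Finset.mem_range] at h1
    constructor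
    · intro h
      by_contra hne
      have : (fm j).testBit i = true := by simpa using hne
      exact (h1.1 this).2 h
    · intro h
      by_contra hne
      have := h1.2 ⟨hi, hne⟩
      rw [h] at this
      exact absurd this (by decide)
  ext b
  constructor
  · intro hb
    obtain ⟨i, hi, rfl⟩ := tri_surj b (hB.1 b hb)
    exact (mem_des hi).2 ((key i hi).1 hb)
  · intro hb
    have hcard := (des_isDesign j hj).1 b hb
    obtain ⟨i, hi, rfl⟩ := tri_surj b hcard
    exact (key i hi).2 ((mem_des hi).1 hb)

theorem fanoComplement_eq : fanoComplement = des 0 := by decide +kernel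

theorem fact_inc : ∀ i < 35, ∀ j < 30, j ≠ 0 → (inc i).testBit j = (fm j).testBit i := by
  decide +kernel

theorem fact_ne : ∀ j < 30, j ≠ 0 → ∃ i < 35, (fm j).testBit i = true ∧
    (fm 0).testBit i = false := by decide +kernel

theorem fact_edges : (∀ e ∈ edges, (∀ i < 35, (fm 0).testBit i = false →
    (inc i).testBit e.1 = true → (i, inc i) ∈ e.2) ∧
    ∀ p ∈ e.2, p.2 = inc p.1 ∧ (inc p.1).testBit e.1 = true) ∧
    ∀ j < 30, j ≠ 0 → ∃ e ∈ edges, e.1 = j := by
  decide +kernel

theorem fact_start : ∀ j, (2 ^ 30 - 2 : ℕ).testBit j = true ↔ j ∈ J := by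
  intro j
  by_cases hj : j < 30
  · revert j
    decide +kernel
  · have h1 : (2 ^ 30 - 2 : ℕ).testBit j = false :=
      Nat.testBit_eq_false_of_lt (lt_of_lt_of_le (by norm_num : (2 ^ 30 - 2 : ℕ) < 2 ^ 30)
        (Nat.pow_le_pow_right (by norm_num) (not_lt.1 hj)))
    rw [h1]
    unfold J
    simp [hj]

theorem fact_ex1 : ∀ p ∈ exL, (∀ i < 35, p.2.testBit i = true → (fm 0).testBit i = false) ∧
    ((Finset.range 35).filter (fun i => p.2.testBit i = true)).card = p.1 := by
  decide +kernel

theorem fact_ex2 : ∀ p ∈ exL, ∀ j < 30, j ≠ 0 → ∃ i < 35, p.2.testBit i = true ∧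
    (fm j).testBit i = true := by
  decide +kernel

theorem fact_ex3 : ∀ p ∈ exL, ∀ i < 35, p.2.testBit i = true → ∃ j < 30, j ≠ 0 ∧
    Nat.land p.2 (fm j) = 2 ^ i := by
  decide +kernel

theorem fact_ex : ∀ p ∈ exL, (∀ i < 35, p.2.testBit i = true → (fm 0).testBit i = false) ∧
    ((Finset.range 35).filter (fun i => p.2.testBit i = true)).card = p.1 ∧
    (∀ j < 30, j ≠ 0 → ∃ i < 35, p.2.testBit i = true ∧ (fm j).testBit i = true) ∧
    ∀ i < 35, p.2.testBit i = true → ∃ j < 30, j ≠ 0 ∧ (fm j).testBit i = true ∧
      ∀ i' < 35, p.2.testBit i' = true → (fm j).testBit i' = true → i' = i := by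
  intro p hp
  refine ⟨(fact_ex1 p hp).1, (fact_ex1 p hp).2, fact_ex2 p hp, ?_⟩
  intro i hi hpi
  obtain ⟨j, hj, hj0, h⟩ := fact_ex3 p hp i hi hpi
  have key : ∀ i', (p.2.testBit i' && (fm j).testBit i') = decide (i = i') := by
    intro i'
    rw [← land_tb, h, Nat.testBit_two_pow]
  refine ⟨j, hj, hj0, ?_, ?_⟩
  · have := key i
    rw [hpi, Bool.true_and] at this
    rw [this]
    simp
  · intro i' _ h1 h2
    have := key i'
    rw [h1, h2] at this
    exact (of_decide_eq_true this.symm).symm

theorem des_ne {j : ℕ} (hj : j < 30) (hj0 : j ≠ 0) : des j ≠ des 0 := by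
  intro h
  obtain ⟨i, hi, h1, h2⟩ := fact_ne j hj hj0
  have h3 := (mem_des hi).2 h2
  rw [← h, mem_des hi, h1] at h3
  exact absurd h3 (by decide)

/-- Every minimal defining set has one of the listed sizes. -/
theorem upper {S : Finset (Finset (Fin 7))} (hS : IsMinimalDefining 2 7 3 4 (des 0) S) :
    S.card ∈ ({7, 8, 9, 10, 13} : Set ℕ) := by
  classical
  obtain ⟨⟨hSsub, hSdef⟩, hmin⟩ := hS
  set H : Finset ℕ := (Finset.range 35).filter (fun i => tri i ∈ S) with hH
  have hHS : S = H.image tri := by
    ext b
    rw [Finset.mem_image]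
    constructor
    · intro hb
      obtain ⟨i, hi, rfl⟩ := tri_surj b ((des_isDesign 0 (by norm_num)).1 b (hSsub hb))
      exact ⟨i, by rw [hH, Finset.mem_filter, Finset.mem_range]; exact ⟨hi, hb⟩, rfl⟩
    · rintro ⟨i, hi, rfl⟩
      rw [hH, Finset.mem_filter] at hi
      exact hi.2
  have hcard : S.card = H.card := by
    rw [hHS, Finset.card_image_of_injOn]
    intro a ha b hb hab
    rw [hH, Finset.coe_filter] at ha hb
    exact tri_inj a (Finset.mem_range.1 ha.1) b (Finset.mem_range.1 hb.1) hab
  have hH35 : ∀ i ∈ H, i < 35 := by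
    intro i hi
    rw [hH, Finset.mem_filter, Finset.mem_range] at hi
    exact hi.1
  have hHmem : ∀ i ∈ H, tri i ∈ S := by
    intro i hi
    rw [hH, Finset.mem_filter] at hi
    exact hi.2
  have hHf : ∀ i ∈ H, (fm 0).testBit i = false := by
    intro i hi
    exact (mem_des (hH35 i hi)).1 (hSsub (hHmem i hi))
  have hJ : ∀ j, j ∈ J ↔ j < 30 ∧ j ≠ 0 := by
    intro j
    unfold J
    rw [Finset.mem_erase, Finset.mem_range]
    tauto
  have hMin : MinHit H := by
    refine ⟨?_, ?_⟩
    · intro j hj
      obtain ⟨hj1, hj0⟩ := (hJ j).1 hj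
      have hn : ¬ S ⊆ des j := by
        intro h
        exact des_ne hj1 hj0 (hSdef (des j) (des_isDesign j hj1) h)
      obtain ⟨b, hb, hbj⟩ := Finset.not_subset.1 hn
      rw [hHS, Finset.mem_image] at hb
      obtain ⟨i, hi, rfl⟩ := hb
      refine ⟨i, hi, ?_⟩
      rw [fact_inc i (hH35 i hi) j hj1 hj0]
      rw [mem_des (hH35 i hi)] at hbj
      simpa using hbj
    · intro i hi
      have hss : S.erase (tri i) ⊂ S := Finset.erase_ssubset (hHmem i hi)
      have hnd := hmin _ hss
      have : ∃ B', IsDesign 2 7 3 4 B' ∧ S.erase (tri i) ⊆ B' ∧ B' ≠ des 0 := by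
        by_contra hno
        push Not at hno
        exact hnd ⟨(Finset.erase_subset _ _).trans hSsub, fun B' h1 h2 => hno B' h1 h2⟩
      obtain ⟨B', hB', hsub, hne⟩ := this
      obtain ⟨j, hj, rfl⟩ := classify hB'
      have hj0 : j ≠ 0 := by
        intro h
        rw [h] at hne
        exact hne rfl
      refine ⟨j, (hJ j).2 ⟨hj, hj0⟩, ?_, ?_⟩
      · rw [fact_inc i (hH35 i hi) j hj hj0]
        by_contra hne'
        have hf : (fm j).testBit i = false := by simpa using hne'
        have hin := (mem_des (hH35 i hi)).2 hf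
        refine hne (hSdef _ hB' ?_)
        intro b hb
        by_cases hbi : b = tri i
        · rw [hbi]; exact hin
        · exact hsub (Finset.mem_erase.2 ⟨hbi, hb⟩)
      · intro i' hi' hinc
        rw [fact_inc i' (hH35 i' hi') j hj hj0] at hinc
        by_contra hne'
        have h1 : tri i' ∈ S.erase (tri i) := by
          refine Finset.mem_erase.2 ⟨?_, hHmem i' hi'⟩
          intro h
          exact hne' (tri_inj i' (hH35 i' hi') i (hH35 i hi) h)
        have h2 := (mem_des (hH35 i' hi')).1 (hsub h1)
        rw [h2] at hinc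
        exact absurd hinc (by decide)
  have hgood : ∀ e ∈ edges, Good H e := by
    intro e he
    refine ⟨?_, (fact_edges.1 e he).2⟩
    intro i hi hinc
    exact (fact_edges.1 e he).1 i (hH35 i hi) (hHf i hi) hinc
  have hInv : Inv H ∅ edges (2 ^ 30 - 2) [] 0 0 := by
    refine ⟨Finset.empty_subset _, rfl, ?_, ?_, ?_, ?_⟩
    · intro j
      rw [fact_start j]
      simp
    · intro c hc
      exact absurd hc List.not_mem_nil
    · intro i _ _
      exact Nat.zero_testBit i
    · intro j hj _
      obtain ⟨hj1, hj0⟩ := (hJ j).1 hj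
      exact fact_edges.2 j hj1 hj0
  have hok := go_sound hMin edges hgood ∅ _ _ _ _ hInv search
  rw [hcard]
  unfold okSize at hok
  have h5 : H.card ∈ [7, 8, 9, 10, 13] := by simpa [List.elem_eq_mem] using hok
  simpa using h5

/-- Each listed size occurs. -/
theorem lower {n : ℕ} (hn : n ∈ ({7, 8, 9, 10, 13} : Set ℕ)) :
    ∃ S, IsMinimalDefining 2 7 3 4 (des 0) S ∧ S.card = n := by
  classical
  have hex : ∃ p ∈ exL, p.1 = n := by
    simp only [Set.mem_insert_iff, Set.mem_singleton_iff] at hn
    rcases hn with rfl | rfl | rfl | rfl | rfl <;> decide +kernel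
  obtain ⟨p, hp, rfl⟩ := hex
  obtain ⟨h1, h2, h3, h4⟩ := fact_ex p hp
  set S : Finset (Finset (Fin 7)) :=
    ((Finset.range 35).filter (fun i => p.2.testBit i = true)).image tri with hS
  have hmemS : ∀ i < 35, (tri i ∈ S ↔ p.2.testBit i = true) := by
    intro i hi
    rw [hS, Finset.mem_image]
    constructor
    · rintro ⟨a, ha, hai⟩
      rw [Finset.mem_filter, Finset.mem_range] at ha
      rw [← tri_inj a ha.1 i hi hai]; exact ha.2
    · intro h
      exact ⟨i, Finset.mem_filter.2 ⟨Finset.mem_range.2 hi, h⟩, rfl⟩
  have hSex : ∀ b ∈ S, ∃ i < 35, tri i = b ∧ p.2.testBit i = true := by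
    intro b hb
    rw [hS, Finset.mem_image] at hb
    obtain ⟨i, hi, rfl⟩ := hb
    rw [Finset.mem_filter, Finset.mem_range] at hi
    exact ⟨i, hi.1, rfl, hi.2⟩
  have hsub : S ⊆ des 0 := by
    intro b hb
    obtain ⟨i, hi, rfl, hpi⟩ := hSex b hb
    exact (mem_des hi).2 (h1 i hi hpi)
  refine ⟨S, ⟨⟨hsub, ?_⟩, ?_⟩, ?_⟩
  · intro B' hB' hSB
    obtain ⟨j, hj, rfl⟩ := classify hB'
    by_cases hj0 : j = 0
    · rw [hj0]
    · exfalso
      obtain ⟨i, hi, hpi, hfi⟩ := h3 j hj hj0
      have := (mem_des hi).1 (hSB ((hmemS i hi).2 hpi))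
      rw [hfi] at this
      exact absurd this (by decide)
  · intro S' hS' hdef
    obtain ⟨b, hb, hbS'⟩ := Finset.exists_of_ssubset hS'
    obtain ⟨i, hi, rfl, hpi⟩ := hSex b hb
    obtain ⟨j, hj, hj0, hfi, hu⟩ := h4 i hi hpi
    refine des_ne hj hj0 (hdef.2 (des j) (des_isDesign j hj) ?_)
    intro b' hb'
    obtain ⟨i', hi', rfl, hpi'⟩ := hSex b' (hS'.1 hb')
    rw [mem_des hi']
    by_contra hne
    have hf : (fm j).testBit i' = true := by simpa using hne
    have := hu i' hi' hpi' hf
    rw [this] at hb'
    exact hbS' hb'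
  · rw [hS, Finset.card_image_of_injOn, h2]
    intro a ha b hb hab
    rw [Finset.coe_filter] at ha hb
    exact tri_inj a (Finset.mem_range.1 ha.1) b (Finset.mem_range.1 hb.1) hab

/-- The 28 triples of `Z/7` that are not lines of the Fano plane form a simple 2-(7,3,4) design
whose minimal defining sets have exactly the sizes 7, 8, 9, 10 and 13. -/
theorem main : IsDesign 2 7 3 4 fanoComplement ∧
    Spec 2 7 3 4 fanoComplement = {7, 8, 9, 10, 13} := by
  rw [fanoComplement_eq]
  refine ⟨des_isDesign 0 (by norm_num), ?_⟩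
  ext n
  constructor
  · rintro ⟨S, hS, rfl⟩
    exact upper hS
  · intro hn
    obtain ⟨S, hS, hSn⟩ := lower hn
    exact ⟨S, hS, hSn⟩

end Pool.Agent.J4H67.MinDef
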